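import Pool.Agent.Helper95.AF.Defs
import Pool.Agent.Helper8.AF.Aff

/-! # Project AF (MP_9ee088_an), block C3: three random matrices

`u = d₁ V₀ - V₁`, the form is `α + β d₃` with `β = W₀ (d₂ u - V₀)`, `α = W₁ (d₂ u - V₀) - W₀ u`. If `|W₁| ≤ |W₀|` one uses `|β|`,
otherwise `|α| = |W₁ u d₂ - (W₁ V₀ + W₀ u)|`; after the integral over `x₂` remains `|W_i u|`, an affine function of `d₁`. -/

set_option autoImplicit false
open MeasureTheory Real Set
open scoped ENNReal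

namespace Pool.Agent.Helper35.AF

open Pool.Agent.Helper95.AF

lemma ip_anti {p x y : ℝ} (hp : 0 < p) (h : x ≤ y) : ip p y ≤ ip p x := by
  unfold ip
  rw [ENNReal.rpow_neg, ENNReal.rpow_neg]
  exact ENNReal.inv_le_inv.2 (ENNReal.rpow_le_rpow (ENNReal.ofReal_le_ofReal h) hp.le)

lemma ip_mul {p c x : ℝ} (hc : 0 < c) : ip p (c * x) = ENNReal.ofReal (c ^ (-p)) * ip p x := by
  unfold ip
  rw [ENNReal.ofReal_mul hc.le, ENNReal.mul_rpow_of_ne_top ENNReal.ofReal_ne_top ENNReal.ofReal_ne_top,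
    ENNReal.ofReal_rpow_of_pos hc]

/-- the form -/
lemma form_eq (a x₁ x₂ x₃ : ℝ) (W V : Fin 2 → ℝ) :
    ∑ i, W i * ((mt a x₃ * mt a x₂ * mt a x₁).mulVec V) i =
      (W 1 * ((2 + 2 * π * a * Real.cos (2 * π * x₂)) * ((2 + 2 * π * a * Real.cos (2 * π * x₁)) * V 0 - V 1) - V 0) -
        W 0 * ((2 + 2 * π * a * Real.cos (2 * π * x₁)) * V 0 - V 1)) +
      (W 0 * ((2 + 2 * π * a * Real.cos (2 * π * x₂)) * ((2 + 2 * π * a * Real.cos (2 * π * x₁)) * V 0 - V 1) - V 0)) *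
        (2 + 2 * π * a * Real.cos (2 * π * x₃)) := by
  simp only [Pool.Agent.Helper95.AF.mt, Fin.sum_univ_two, Matrix.mulVec, dotProduct, Matrix.mul_apply, Matrix.cons_val', Matrix.cons_val_zero,
    Matrix.cons_val_one, Matrix.of_apply, Matrix.empty_val', Matrix.cons_val_fin_one]
  ring

theorem form_int_of {K : ℝ} (hK : 1 ≤ K)
    (h : ∀ a x₀ R p α β : ℝ, 1 ≤ |a| → 0 < R → R ≤ 1 / 2 → 0 < p → p ≤ 1 / 4 →
      ∫⁻ x in Icc (x₀ - R) (x₀ + R), ip p |α + β * (2 + 2 * π * a * Real.cos (2 * π * x))| ≤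
        ENNReal.ofReal (2 * R * (K / R) ^ (4 * p)) * ip p (max |α| |β|)) :
    ∃ K : ℝ, 1 ≤ K ∧ ∀ (a R p : ℝ) (c : Fin 3 → ℝ) (W V : Fin 2 → ℝ), 1 ≤ |a| → 0 < R → R ≤ 1 / 2 →
    0 < p → p ≤ 1 / 4 →
    ∫⁻ x₁ in Icc (c 0 - R) (c 0 + R), ∫⁻ x₂ in Icc (c 1 - R) (c 1 + R), ∫⁻ x₃ in Icc (c 2 - R) (c 2 + R),
      ip p |∑ i, W i * ((mt a x₃ * mt a x₂ * mt a x₁).mulVec V) i| ≤
      ENNReal.ofReal ((2 * R) ^ 3 * (K / R) ^ (12 * p)) * ip p (nv W * nv V) := by
  refine ⟨4 * K, by linarith, fun a R p c W V ha hR hR1 hp hp1 => ?_⟩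
  set C : ℝ≥0∞ := ENNReal.ofReal (2 * R * (K / R) ^ (4 * p)) with hC
  have hCt : C ≠ ∞ := ENNReal.ofReal_ne_top
  have hKR : 0 < K / R := div_pos (by linarith) hR
  -- the last step: the factor `|w|` and the affine function of `d₁`
  have step1 : ∀ w : ℝ, ∫⁻ x₁ in Icc (c 0 - R) (c 0 + R),
      ip p |w * ((2 + 2 * π * a * Real.cos (2 * π * x₁)) * V 0 - V 1)| ≤ C * ip p (|w| * max |V 0| |V 1|) := by
    intro w
    have h1 := h a (c 0) R p (-(w * V 1)) (w * V 0) ha hR hR1 hp hp1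
    have e1 : max |(-(w * V 1))| |w * V 0| = |w| * max |V 0| |V 1| := by
      rw [abs_neg, abs_mul, abs_mul, ← mul_max_of_nonneg _ _ (abs_nonneg w), max_comm]
    rw [e1] at h1
    refine le_trans (le_of_eq ?_) h1
    refine lintegral_congr fun x => ?_
    congr 2
    ring
  have key : ∃ w : ℝ, |w| = max |W 0| |W 1| ∧
      ∀ x₁ : ℝ, ∫⁻ x₂ in Icc (c 1 - R) (c 1 + R), ∫⁻ x₃ in Icc (c 2 - R) (c 2 + R),
        ip p |∑ i, W i * ((mt a x₃ * mt a x₂ * mt a x₁).mulVec V) i| ≤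
        C * (C * ip p |w * ((2 + 2 * π * a * Real.cos (2 * π * x₁)) * V 0 - V 1)|) := by
    have h3 : ∀ x₁ x₂ : ℝ, ∫⁻ x₃ in Icc (c 2 - R) (c 2 + R),
        ip p |∑ i, W i * ((mt a x₃ * mt a x₂ * mt a x₁).mulVec V) i| ≤
        C * ip p (max |W 1 * ((2 + 2 * π * a * Real.cos (2 * π * x₂)) *
            ((2 + 2 * π * a * Real.cos (2 * π * x₁)) * V 0 - V 1) - V 0) -
            W 0 * ((2 + 2 * π * a * Real.cos (2 * π * x₁)) * V 0 - V 1)|
          |W 0 * ((2 + 2 * π * a * Real.cos (2 * π * x₂)) *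
            ((2 + 2 * π * a * Real.cos (2 * π * x₁)) * V 0 - V 1) - V 0)|) := by
      intro x₁ x₂
      refine le_trans (le_of_eq ?_) (h a (c 2) R p _ _ ha hR hR1 hp hp1)
      refine lintegral_congr fun x => ?_
      rw [form_eq]
    rcases le_total |W 1| |W 0| with hW | hW
    · refine ⟨W 0, (max_eq_left hW).symm, fun x₁ => ?_⟩
      set u : ℝ := (2 + 2 * π * a * Real.cos (2 * π * x₁)) * V 0 - V 1 with hu
      have h2 := h a (c 1) R p (-(W 0 * V 0)) (W 0 * u) ha hR hR1 hp hp1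
      calc _ ≤ ∫⁻ x₂ in Icc (c 1 - R) (c 1 + R),
            C * ip p |(-(W 0 * V 0)) + W 0 * u * (2 + 2 * π * a * Real.cos (2 * π * x₂))| := by
            refine lintegral_mono fun x₂ => (h3 x₁ x₂).trans ?_
            refine mul_le_mul_right (ip_anti hp ?_) _
            refine le_trans (le_of_eq ?_) (le_max_right _ _)
            rw [← hu]
            congr 1
            ring
        _ = C * ∫⁻ x₂ in Icc (c 1 - R) (c 1 + R),
            ip p |(-(W 0 * V 0)) + W 0 * u * (2 + 2 * π * a * Real.cos (2 * π * x₂))| :=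
            lintegral_const_mul' _ _ hCt
        _ ≤ C * (C * ip p (max |(-(W 0 * V 0))| |W 0 * u|)) := mul_le_mul_right h2 _
        _ ≤ _ := by
            refine mul_le_mul_right (mul_le_mul_right (ip_anti hp (le_max_right _ _)) _) _
    · refine ⟨W 1, (max_eq_right hW).symm, fun x₁ => ?_⟩
      set u : ℝ := (2 + 2 * π * a * Real.cos (2 * π * x₁)) * V 0 - V 1 with hu
      have h2 := h a (c 1) R p (-(W 1 * V 0 + W 0 * u)) (W 1 * u) ha hR hR1 hp hp1
      calc _ ≤ ∫⁻ x₂ in Icc (c 1 - R) (c 1 + R),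
            C * ip p |(-(W 1 * V 0 + W 0 * u)) + W 1 * u * (2 + 2 * π * a * Real.cos (2 * π * x₂))| := by
            refine lintegral_mono fun x₂ => (h3 x₁ x₂).trans ?_
            refine mul_le_mul_right (ip_anti hp ?_) _
            refine le_trans (le_of_eq ?_) (le_max_left _ _)
            rw [← hu]
            congr 1
            ring
        _ = C * ∫⁻ x₂ in Icc (c 1 - R) (c 1 + R),
            ip p |(-(W 1 * V 0 + W 0 * u)) + W 1 * u * (2 + 2 * π * a * Real.cos (2 * π * x₂))| :=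
            lintegral_const_mul' _ _ hCt
        _ ≤ C * (C * ip p (max |(-(W 1 * V 0 + W 0 * u))| |W 1 * u|)) := mul_le_mul_right h2 _
        _ ≤ _ := by
            refine mul_le_mul_right (mul_le_mul_right (ip_anti hp (le_max_right _ _)) _) _
  obtain ⟨w, hw, hkey⟩ := key
  have hnv : ∀ Z : Fin 2 → ℝ, nv Z ≤ 2 * max |Z 0| |Z 1| := fun Z => by
    unfold nv
    linarith [le_max_left |Z 0| |Z 1|, le_max_right |Z 0| |Z 1|]
  have hnv0 : ∀ Z : Fin 2 → ℝ, 0 ≤ nv Z := fun Z => add_nonneg (abs_nonneg _) (abs_nonneg _)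
  calc _ ≤ ∫⁻ x₁ in Icc (c 0 - R) (c 0 + R),
        C * (C * ip p |w * ((2 + 2 * π * a * Real.cos (2 * π * x₁)) * V 0 - V 1)|) :=
        lintegral_mono fun x₁ => hkey x₁
    _ = C * (C * ∫⁻ x₁ in Icc (c 0 - R) (c 0 + R),
        ip p |w * ((2 + 2 * π * a * Real.cos (2 * π * x₁)) * V 0 - V 1)|) := by
        rw [lintegral_const_mul' _ _ hCt, lintegral_const_mul' _ _ hCt]
    _ ≤ C * (C * (C * ip p (|w| * max |V 0| |V 1|))) :=
        mul_le_mul_right (mul_le_mul_right (step1 w) _) _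
    _ ≤ C * (C * (C * (ENNReal.ofReal ((1 / 4 : ℝ) ^ (-p)) * ip p (nv W * nv V)))) := by
        refine mul_le_mul_right (mul_le_mul_right (mul_le_mul_right ?_ _) _) _
        rw [← ip_mul (by norm_num : (0 : ℝ) < 1 / 4)]
        refine ip_anti hp ?_
        rw [hw]
        have h5 : nv W * nv V ≤ (2 * max |W 0| |W 1|) * (2 * max |V 0| |V 1|) :=
          mul_le_mul (hnv W) (hnv V) (hnv0 V) (by positivity)
        linarith
    _ = ENNReal.ofReal ((2 * R) ^ 3 * (K / R) ^ (12 * p) * (1 / 4 : ℝ) ^ (-p)) * ip p (nv W * nv V) := by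
        rw [← mul_assoc, ← mul_assoc, ← mul_assoc, hC, ← ENNReal.ofReal_mul (by positivity),
          ← ENNReal.ofReal_mul (by positivity), ← ENNReal.ofReal_mul (by positivity)]
        congr 2
        have h6 : (K / R) ^ (12 * p) = (K / R) ^ (4 * p) * (K / R) ^ (4 * p) * (K / R) ^ (4 * p) := by
          rw [← Real.rpow_add hKR, ← Real.rpow_add hKR]
          congr 1
          ring
        rw [h6]
        ring
    _ ≤ _ := by
        refine mul_le_mul_left (ENNReal.ofReal_le_ofReal ?_) _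
        have h7 : (4 * K / R) ^ (12 * p) = (4 : ℝ) ^ (12 * p) * (K / R) ^ (12 * p) := by
          rw [mul_div_assoc, Real.mul_rpow (by norm_num) hKR.le]
        have h8 : (1 / 4 : ℝ) ^ (-p) ≤ (4 : ℝ) ^ (12 * p) := by
          rw [one_div, Real.inv_rpow (by norm_num), Real.rpow_neg (by norm_num), inv_inv]
          exact Real.rpow_le_rpow_of_exponent_le (by norm_num) (by linarith)
        rw [h7, mul_assoc, mul_comm ((K / R) ^ (12 * p)) ((1 / 4 : ℝ) ^ (-p))]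
        exact mul_le_mul_of_nonneg_left (mul_le_mul_of_nonneg_right h8 (by positivity)) (by positivity)

/-- **C3**: three random matrices -/
theorem form_int : ∃ K : ℝ, 1 ≤ K ∧ ∀ (a R p : ℝ) (c : Fin 3 → ℝ) (W V : Fin 2 → ℝ), 1 ≤ |a| → 0 < R → R ≤ 1 / 2 →
    0 < p → p ≤ 1 / 4 →
    ∫⁻ x₁ in Icc (c 0 - R) (c 0 + R), ∫⁻ x₂ in Icc (c 1 - R) (c 1 + R), ∫⁻ x₃ in Icc (c 2 - R) (c 2 + R),
      ip p |∑ i, W i * ((mt a x₃ * mt a x₂ * mt a x₁).mulVec V) i| ≤
      ENNReal.ofReal ((2 * R) ^ 3 * (K / R) ^ (12 * p)) * ip p (nv W * nv V) := by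
  obtain ⟨K, hK, h⟩ := Pool.Agent.Helper8.AF.aff_int
  exact form_int_of hK h

end Pool.Agent.Helper35.AF
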